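import Pool.Agent.H11.NZ.Targets

/-!
# Module DE of the board nz_modules (MP_9b2842_al)
-/

set_option autoImplicit false

open Equiv (Perm)

namespace Pool.Agent.H58.NZ.DE

open Pool.Agent.H11.NZ Pool.Agent.H11.NY

/-- the even permutations living on `Δ` -/
theorem mem_alt {Ω : Type} [Fintype Ω] [DecidableEq Ω] (Δ : Finset Ω) (σ : alternatingGroup Ω) :
    σ ∈ (alternatingGroup.ofSubtype Δ).range ↔ ∀ ω : Ω, ω ∉ Δ → (σ : Perm Ω) ω = ω := by
  rw [alternatingGroup.mem_range_ofSubtype_iff]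
  constructor
  · intro h ω hω
    by_contra hne
    exact hω (h (Equiv.Perm.mem_support.2 hne))
  · intro h ω hω
    by_contra hne
    exact (Equiv.Perm.mem_support.1 hω) (h ω hne)

/-- the group of the even permutations living on `Δ` is perfect -/
theorem alt_perfect {Ω : Type} [Fintype Ω] [DecidableEq Ω] (Δ : Finset Ω) (hΔ : 5 ≤ Δ.card) :
    ⁅(alternatingGroup.ofSubtype Δ).range, (alternatingGroup.ofSubtype Δ).range⁆ =
      (alternatingGroup.ofSubtype Δ).range := by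
  rw [MonoidHom.range_eq_map, ← Subgroup.map_commutator, ← commutator_def,
    commutator_alternatingGroup_eq_top (by simpa using hΔ)]

theorem pf_de : T_DE := by
  intro L Ω _ _ _ _ ψ X hX Δ hΔ
  classical
  obtain ⟨hXn, hXs, hXm⟩ := hX
  -- image of a covering subgroup
  have himg : ∀ C : Subgroup L, CovOn ψ X Δ C →
      C.map ψ = (alternatingGroup.ofSubtype Δ).range := by
    rintro C ⟨h1, h2, h3, h4⟩
    ext σ
    rw [mem_alt]
    constructor
    · rintro ⟨c, hc, rfl⟩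
      exact h2 c hc
    · intro hσ
      obtain ⟨c, hc, rfl⟩ := h4 σ hσ
      exact Subgroup.mem_map_of_mem ψ hc
  -- intersections
  have hinf : ∀ C₁ C₂ : Subgroup L, CovOn ψ X Δ C₁ → CovOn ψ X Δ C₂ →
      CovOn ψ X Δ (C₁ ⊓ C₂) := by
    intro C₁ C₂ hc1 hc2
    have e1 := himg C₁ hc1
    have e2 := himg C₂ hc2
    obtain ⟨h1, h2, h3, h4⟩ := hc1
    obtain ⟨g1, g2, g3, g4⟩ := hc2
    refine ⟨fun x hx => h1 hx.1, fun c hc => h2 c hc.1, fun x hx hl c hc =>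
      ⟨h3 x hx hl c hc.1, g3 x hx hl c hc.2⟩, ?_⟩
    have hcomm : ⁅C₁, C₂⁆ ≤ C₁ ⊓ C₂ := by
      rw [Subgroup.commutator_le]
      intro a ha b hb
      rw [commutatorElement_def]
      refine ⟨?_, ?_⟩
      · have hb1 : b * a⁻¹ * b⁻¹ ∈ C₁ := h3 b (g1 hb) (g2 b hb) a⁻¹ (C₁.inv_mem ha)
        have := C₁.mul_mem ha hb1
        rw [← mul_assoc, ← mul_assoc] at this
        exact this
      · exact C₂.mul_mem (g3 a (h1 ha) (h2 a ha) b hb) (C₂.inv_mem hb)
    intro σ hσ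
    rw [← mem_alt, ← alt_perfect Δ hΔ] at hσ
    rw [show ⁅(alternatingGroup.ofSubtype Δ).range, (alternatingGroup.ofSubtype Δ).range⁆ =
      ⁅C₁.map ψ, C₂.map ψ⁆ by rw [e1, e2], ← Subgroup.map_commutator] at hσ
    obtain ⟨c, hc, rfl⟩ := Subgroup.mem_map.1 hσ
    exact ⟨c, hcomm hc, rfl⟩
  -- a first one
  let C₀ : Subgroup L := X ⊓ (alternatingGroup.ofSubtype Δ).range.comap ψ
  have hC₀ : CovOn ψ X Δ C₀ := by
    refine ⟨inf_le_left, ?_, ?_, ?_⟩
    · rintro c ⟨_, hc⟩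
      exact (mem_alt Δ (ψ c)).1 hc
    · rintro x hx hl c ⟨hc, hc'⟩
      refine ⟨hXn.conj_mem c hc x, ?_⟩
      have hxr : ψ x ∈ (alternatingGroup.ofSubtype Δ).range := (mem_alt Δ (ψ x)).2 hl
      have hc'' : ψ c ∈ (alternatingGroup.ofSubtype Δ).range := hc'
      change ψ (x * c * x⁻¹) ∈ (alternatingGroup.ofSubtype Δ).range
      rw [map_mul, map_mul, map_inv]
      exact Subgroup.mul_mem _ (Subgroup.mul_mem _ hxr hc'') (Subgroup.inv_mem _ hxr)
    · intro σ hσ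
      have h1 : σ ∈ X.map ψ := by rw [hXs]; exact Subgroup.mem_top _
      obtain ⟨x, hx, rfl⟩ := Subgroup.mem_map.1 h1
      exact ⟨x, ⟨hx, (mem_alt Δ (ψ x)).2 hσ⟩, rfl⟩
  let S : Set (Subgroup L) := {C | CovOn ψ X Δ C}
  obtain ⟨D, hD⟩ := (Set.toFinite S).exists_minimal ⟨C₀, hC₀⟩
  refine ⟨D, hD.1, fun C hC => ?_⟩
  have h1 : CovOn ψ X Δ (D ⊓ C) := hinf D C hD.1 hC
  exact le_trans (hD.2 h1 inf_le_left) inf_le_right

end Pool.Agent.H58.NZ.DE
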