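import Pool.Agent.H11.NZ.Targets

/-!
# Module XC of the board nz_modules (MP_9b2842_al)
-/

set_option autoImplicit false

open Equiv (Perm)

namespace Pool.Agent.H58.NZ.XC

open Pool.Agent.H11.NZ Pool.Agent.H11.NY

theorem pf_xc : T_XC := by
  intro L Ω _ _ _ ψ X hΩ hX C hC ht
  classical
  obtain ⟨hXn, hXs, hXm⟩ := hX
  have h5 : 5 ≤ Nat.card Ω := by rwa [Nat.card_eq_fintype_card]
  have hcen : Subgroup.center (alternatingGroup Ω) = ⊥ :=
    alternatingGroup.center_eq_bot (by omega)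
  have hsimp : IsSimpleGroup (alternatingGroup Ω) := alternatingGroup.isSimpleGroup h5
  obtain ⟨t, htC, ht1⟩ := ht
  -- the image of `C ⊓ X`
  have hnorm : ((C ⊓ X).map ψ).Normal := by
    constructor
    rintro _ ⟨y, hy, rfl⟩ g
    have hg : g ∈ X.map ψ := by rw [hXs]; exact Subgroup.mem_top _
    obtain ⟨x, hx, rfl⟩ := Subgroup.mem_map.1 hg
    rw [← map_mul, ← map_inv, ← map_mul]
    exact Subgroup.mem_map_of_mem ψ ⟨hC x hx y hy.1, hXn.conj_mem y hy.2 x⟩
  have hne : (C ⊓ X).map ψ ≠ ⊥ := by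
    intro hbot
    apply ht1
    rw [← Subgroup.mem_bot, ← hcen, Subgroup.mem_center_iff]
    intro g
    have hg : g ∈ X.map ψ := by rw [hXs]; exact Subgroup.mem_top _
    obtain ⟨x, hx, rfl⟩ := Subgroup.mem_map.1 hg
    have hmem : x * t * x⁻¹ * t⁻¹ ∈ C ⊓ X := by
      refine ⟨C.mul_mem (hC x hx t htC) (C.inv_mem htC), ?_⟩
      have h1 : t * x⁻¹ * t⁻¹ ∈ X := hXn.conj_mem x⁻¹ (X.inv_mem hx) t
      have h2 := X.mul_mem hx h1
      rw [← mul_assoc, ← mul_assoc] at h2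
      exact h2
    have h3 := Subgroup.mem_map_of_mem ψ hmem
    rw [hbot, Subgroup.mem_bot] at h3
    simp only [map_mul, map_inv] at h3
    rw [mul_inv_eq_one, mul_inv_eq_iff_eq_mul] at h3
    exact h3
  have htop : (C ⊓ X).map ψ = ⊤ := (hsimp.eq_bot_or_eq_top_of_normal _ hnorm).resolve_left hne
  have := hXm (C ⊓ X) inf_le_right
    (fun x hx y hy => ⟨hC x hx y hy.1, hXn.conj_mem y hy.2 x⟩) htop
  rw [← this]
  exact inf_le_left

end Pool.Agent.H58.NZ.XC
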