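import Pool.Agent.H11.NZ.Targets

/-!
# Module XQ of the board nz_modules (MP_9b2842_al)
-/

set_option autoImplicit false

open Equiv (Perm)

namespace Pool.Agent.H58.NZ.XQ

open Pool.Agent.H11.NZ Pool.Agent.H11.NY

theorem pf_xq : T_XQ := by
  intro L Q Ω _ _ _ _ ψ ψ' π hπ hψ X hX
  obtain ⟨hXn, hXs, hXm⟩ := hX
  have hmap : ∀ M : Subgroup L, (M.map π).map ψ' = M.map ψ := by
    intro M
    ext g
    constructor
    · rintro ⟨_, ⟨y, hy, rfl⟩, rfl⟩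
      exact ⟨y, hy, (hψ y).symm⟩
    · rintro ⟨y, hy, rfl⟩
      exact ⟨π y, ⟨y, hy, rfl⟩, hψ y⟩
  refine ⟨⟨?_, ?_, ?_⟩, ?_⟩
  · exact hXn.map π hπ
  · rw [hmap, hXs]
  · intro M' hM' hn hs
    refine le_antisymm hM' ?_
    have h1 : X ⊓ M'.comap π = X := by
      refine hXm _ inf_le_left ?_ ?_
      · rintro x hx y ⟨hy, hy'⟩
        refine ⟨hXn.conj_mem y hy x, ?_⟩
        change π (x * y * x⁻¹) ∈ M'
        rw [map_mul, map_mul, map_inv]
        exact hn (π x) (Subgroup.mem_map_of_mem π hx) (π y) hy'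
      · rw [eq_top_iff, ← hs]
        rintro _ ⟨m, hm, rfl⟩
        obtain ⟨x, hx, rfl⟩ := Subgroup.mem_map.1 (hM' hm)
        exact ⟨x, ⟨hx, hm⟩, (hψ x).symm⟩
    rintro _ ⟨x, hx, rfl⟩
    rw [SetLike.mem_coe, ← h1] at hx
    exact hx.2
  · rintro Δ D ⟨⟨h1, h2, h3, h4⟩, hmin⟩
    refine ⟨⟨?_, ?_, ?_, ?_⟩, ?_⟩
    · exact Subgroup.map_mono h1
    · rintro _ ⟨c, hc, rfl⟩ ω hω
      rw [hψ]; exact h2 c hc ω hω
    · rintro _ ⟨x, hx, rfl⟩ hlive _ ⟨c, hc, rfl⟩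
      rw [← map_inv, ← map_mul, ← map_mul]
      refine Subgroup.mem_map_of_mem π (h3 x hx ?_ c hc)
      intro ω hω
      have := hlive ω hω
      rwa [hψ] at this
    · intro σ hσ
      obtain ⟨c, hc, rfl⟩ := h4 σ hσ
      exact ⟨π c, Subgroup.mem_map_of_mem π hc, hψ c⟩
    · rintro C' ⟨g1, g2, g3, g4⟩
      have hle : D ≤ X ⊓ C'.comap π := by
        refine hmin _ ⟨inf_le_left, ?_, ?_, ?_⟩
        · rintro c ⟨_, hc⟩ ω hω
          rw [← hψ]; exact g2 (π c) hc ω hω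
        · rintro x hx hlive c ⟨hc, hc'⟩
          refine ⟨hXn.conj_mem c hc x, ?_⟩
          change π (x * c * x⁻¹) ∈ C'
          rw [map_mul, map_mul, map_inv]
          refine g3 (π x) (Subgroup.mem_map_of_mem π hx) ?_ (π c) hc'
          intro ω hω
          rw [hψ]; exact hlive ω hω
        · intro σ hσ
          obtain ⟨c', hc', rfl⟩ := g4 σ hσ
          obtain ⟨x, hx, rfl⟩ := Subgroup.mem_map.1 (g1 hc')
          exact ⟨x, ⟨hx, hc'⟩, (hψ x).symm⟩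
      rintro _ ⟨d, hd, rfl⟩
      exact (hle hd).2

end Pool.Agent.H58.NZ.XQ
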